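import Pool.Agent.U81.MQ.Fin
import Pool.Agent.K4H15.BW.Gal

/-!
The infinite towers.
-/

set_option autoImplicit false

namespace Pool.Agent.U81.MQ

open NumberField IsDedekindDomain Pointwise WithZero Filter
open Pool.Agent.K4H15.BW (tower roots root_mem efD NVD)
open Pool.Agent.K4H55.BI (IQ BF)
open Pool.Agent.K4H55.BD (low mem_low pv crv Cub QE densK tau tau_tau mul_tau norm_eq res_int tau_int
  Ro coe_tau)
open Pool.Agent.K4H55.CX (facF SelG fin_up noroot_up)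
open Pool.Agent.U81.BX (fct)

variable {K : Type} [Field K] [NumberField K] {σ : K →+* ℂ} {δ : K} {a b n : 𝓞 K}
  {c : Ideal (𝓞 K) → ℂ}

/-- unramified places of degree one -/
lemma unr_iff (h : IQ K σ δ) [IsPrincipalIdealRing (𝓞 K)] {q : ℕ} (hq : q.Prime)
    {v : HeightOneSpectrum (𝓞 K)} (hd : Ideal.absNorm v.asIdeal = q) :
    (∃ x, x - tau h x ∉ v.asIdeal) ↔ (q : 𝓞 K) ∉ v.asIdeal ^ 2 := by
  obtain ⟨g, hg⟩ := (IsPrincipalIdealRing.principal v.asIdeal).principal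
  have hg' : v.asIdeal = Ideal.span {g} := hg
  have hgv : g ∈ v.asIdeal := by rw [hg']; exact Ideal.mem_span_singleton_self g
  have hgq : g * tau h g = (q : 𝓞 K) := by
    rw [mul_tau, norm_eq h, ← hg', hd, Int.cast_natCast]
  have hg0 : g ≠ 0 := by
    rintro rfl
    apply v.ne_bot
    rw [hg', Ideal.span_singleton_eq_bot]
  have key : (q : 𝓞 K) ∈ v.asIdeal ^ 2 ↔ tau h g ∈ v.asIdeal := by
    rw [hg', Ideal.span_singleton_pow, Ideal.mem_span_singleton, Ideal.mem_span_singleton, ← hgq,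
      pow_two]
    exact mul_dvd_mul_iff_left hg0
  rw [key]
  constructor
  · rintro ⟨x, hx⟩ h1
    apply hx
    obtain ⟨m, hm⟩ := res_int hq hd x
    have h2 : tau h (x - m) ∈ v.asIdeal := by
      rw [hg', Ideal.mem_span_singleton] at hm
      obtain ⟨z, hz⟩ := hm
      rw [hz, map_mul]
      exact v.asIdeal.mul_mem_right _ h1
    rw [map_sub, tau_int] at h2
    have e : x - tau h x = (x - m) - (tau h x - m) := by ring
    rw [e]
    exact v.asIdeal.sub_mem hm h2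
  · intro h1
    refine ⟨g, fun h2 => h1 ?_⟩
    have h3 := v.asIdeal.sub_mem hgv h2
    rwa [sub_sub_cancel] at h3

lemma qe_iff (h : IQ K σ δ) [IsPrincipalIdealRing (𝓞 K)]
    (hE : ∀ v : HeightOneSpectrum (𝓞 K), 2 * (4 * a ^ 3 + 27 * b ^ 2) ∉ v.asIdeal →
      n ∉ v.asIdeal ∧ c v.asIdeal = (Ideal.absNorm v.asIdeal : ℂ) - pv a b v) {q : ℕ} :
    q ∈ QE h a b n ↔ q.Prime ∧ q ≠ 2 ∧ ∀ v : HeightOneSpectrum (𝓞 K), (q : 𝓞 K) ∈ v.asIdeal →
      Ideal.absNorm v.asIdeal = q ∧ (q : 𝓞 K) ∉ v.asIdeal ^ 2 ∧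
        2 * (4 * a ^ 3 + 27 * b ^ 2) ∉ v.asIdeal ∧ ∀ x : 𝓞 K, x ^ 3 + a * x + b ∉ v.asIdeal := by
  constructor
  · rintro ⟨h1, h2⟩
    exact ⟨h1.pr, h1.odd, fun v hv => ⟨h1.deg v hv, (unr_iff h h1.pr (h1.deg v hv)).1 (h1.unr v hv),
      (h2 v hv).1, (h2 v hv).2.2⟩⟩
  · rintro ⟨h1, h2, h3⟩
    exact ⟨⟨h1, h2, fun v hv => (h3 v hv).1, fun v hv => (unr_iff h h1 (h3 v hv).1).2 (h3 v hv).2.1⟩,
      fun v hv => ⟨(h3 v hv).2.2.1, (hE v (h3 v hv).2.2.1).1, (h3 v hv).2.2.2⟩⟩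

section cub

variable {L : Type} [Field L] [NumberField L] [Algebra K L] {θ : L}

lemma dens (h : IQ K σ δ) (hΔ : 4 * a ^ 3 + 27 * b ^ 2 ≠ 0) (hn : n ≠ 0) (hK : Cub K θ)
    (hθ : θ ^ 3 + algebraMap K L a * θ + algebraMap K L b = 0) :
    ∃ d : ℝ, 0 < d ∧ ∀ᶠ N : ℕ in atTop,
      d * (N / Real.log N) ≤ Nat.card {q : ℕ // q ≤ N ∧ q ∈ QE h a b n} := by
  classical
  obtain ⟨d, hd, h1⟩ := densK h hΔ hn (fun x => by
    have := noroot_up (F := K) hK hθ (k := 0) (by rw [pow_zero]; exact Module.finrank_self K) x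
    exact this)
  refine ⟨d, hd, ?_⟩
  filter_upwards [h1 ∅ Set.finite_empty] with N hN
  refine hN.trans (le_of_eq ?_)
  congr 1
  rw [Set.sdiff_empty]
  unfold Pool.Agent.K4H55.AB.Cnt.cA
  have h3 : {q : ℕ | q ≤ N ∧ q ∈ QE h a b n} =
      (((Finset.range (N + 1)).filter (· ∈ QE h a b n) : Finset ℕ) : Set ℕ) := by
    ext q
    simp only [Set.mem_ofPred_eq, Finset.coe_filter, Finset.mem_range, Nat.lt_succ_iff]
  have h4 : Nat.card {q : ℕ // q ≤ N ∧ q ∈ QE h a b n} =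
      Set.ncard {q : ℕ | q ≤ N ∧ q ∈ QE h a b n} := by
    rw [← Nat.card_coe_set_eq]; rfl
  rw [h4, h3, Set.ncard_coe_finset]

end cub

lemma nvd_one (hE : ∀ v : HeightOneSpectrum (𝓞 K), 2 * (4 * a ^ 3 + 27 * b ^ 2) ∉ v.asIdeal →
      n ∉ v.asIdeal ∧ c v.asIdeal = (Ideal.absNorm v.asIdeal : ℂ) - pv a b v) {G : ℂ → ℂ}
    (hG : Differentiable ℂ G) (hp : ∀ s : ℂ, 2 < s.re → HasProd (fct (F := K) a b n c s) (G s))
    (hne : G 1 ≠ 0) : NVD a b n c 1 := by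
  classical
  refine ⟨G, hG, fun s hs => ?_, hne⟩
  refine (congrArg (fun g => HasProd g (G s)) (funext fun v => ?_)).mp (hp s hs)
  have h0 : low (K := K) v = v := by
    apply HeightOneSpectrum.ext
    show v.asIdeal.comap (algebraMap (𝓞 K) (𝓞 K)) = v.asIdeal
    rw [Algebra.algebraMap_self, Ideal.comap_id]
  have h1 := U81.BX.fct_eq (F := K) hE v (f := 1) (by rw [h0, pow_one]) s
  rw [h1, h0]
  have h2 := U81.BX.two_le v
  unfold facF efD
  have h3 : Nat.log (Ideal.absNorm v.asIdeal) (Ideal.absNorm v.asIdeal) = 1 := by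
    have h4 := Nat.log_pow (b := Ideal.absNorm v.asIdeal) (by omega) 1
    rwa [pow_one] at h4
  rw [h3]
  have hone : (1 : 𝓞 K) ∉ v.asIdeal := fun h5 => v.isPrime.ne_top ((Ideal.eq_top_iff_one _).2 h5)
  by_cases h4 : n ∈ v.asIdeal
  · have h5 : 2 * (4 * a ^ 3 + 27 * b ^ 2) ∈ v.asIdeal := by
      by_contra h6
      exact (hE v h6).1 h4
    rw [if_pos h4, if_pos h5, if_pos h4]
    simp
  · rw [if_neg h4]
    by_cases h5 : 2 * (4 * a ^ 3 + 27 * b ^ 2) ∈ v.asIdeal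
    · rw [if_pos h5, if_neg h4]
      simp [Pool.Agent.K4H55.CX.luc]
    · rw [if_neg h5, if_neg hone, one_pow, one_pow, mul_one, mul_one, (hE v h5).2]
      simp [Pool.Agent.K4H55.CX.luc]

variable {L : Type} [Field L] [NumberField L] [Algebra K L] {θ : L}

/-- **The towers.** -/
theorem top (h : IQ K σ δ) [IsPrincipalIdealRing (𝓞 K)] (hΔ : 4 * a ^ 3 + 27 * b ^ 2 ≠ 0)
    (hf : BF σ δ n c)
    (hE : ∀ v : HeightOneSpectrum (𝓞 K), 2 * (4 * a ^ 3 + 27 * b ^ 2) ∉ v.asIdeal →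
      n ∉ v.asIdeal ∧ c v.asIdeal = (Ideal.absNorm v.asIdeal : ℂ) - pv a b v)
    (h0 : NVD a b n c 1) (hK : Cub K θ)
    (hθ : θ ^ 3 + algebraMap K L a * θ + algebraMap K L b = 0) (hS : SelG a b θ)
    {Q : Set ℕ} (hQi : Q.Infinite) (hQ : ∀ q ∈ Q, q ∈ QE h a b n) :
    ∃ T : IntermediateField K (AlgebraicClosure K), ¬ FiniteDimensional K T ∧ IsGalois ℚ T ∧
      (∃ s t : T ≃ₐ[ℚ] T, s * t ≠ t * s) ∧ (∀ s : T ≃ₐ[K] T, s * s = 1) ∧
      ∀ (F : IntermediateField K (AlgebraicClosure K)) [NumberField F], F ≤ T →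
        IsGalois K F ∧ (∃ k : ℕ, Module.finrank K F = 2 ^ k) ∧
        (∀ v : HeightOneSpectrum (𝓞 K), 2 * (4 * a ^ 3 + 27 * b ^ 2) ∈ v.asIdeal →
          Nonempty (F →ₐ[K] v.adicCompletion K)) ∧
        (∀ u : HeightOneSpectrum (𝓞 F),
          2 * (4 * a ^ 3 + 27 * b ^ 2) ∉ (low (K := K) u).asIdeal →
          (∀ q ∈ Q, (q : 𝓞 K) ∉ (low (K := K) u).asIdeal) →
          ∀ x : K, u.valuation F (algebraMap K F x) = (low (K := K) u).valuation K x) ∧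
        (∃ G : ℂ → ℂ, Differentiable ℂ G ∧
          (∀ s : ℂ, 2 < s.re → HasProd (fct (F := F) a b n c s) (G s)) ∧ G 1 ≠ 0) ∧
        (Finite (crv (algebraMap K F a) (algebraMap K F b)).toAffine.Point ∧
          Odd (Nat.card (crv (algebraMap K F a) (algebraMap K F b)).toAffine.Point)) ∧
        (∀ (k : ℕ) (s : Pool.Agent.TH841.NF.D.Sha (crv (algebraMap K F a) (algebraMap K F b))),
          (2 ^ k : ℕ) • s = 0 → s = 0) ∧
        ∀ x : Pool.Agent.Y667.BKP.H1f 2 (crv (algebraMap K F a) (algebraMap K F b)), x = 0 := by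
  classical
  set x0 : 𝓞 K := 4 * a ^ 3 + 27 * b ^ 2 with hx0
  have hnorm : (Algebra.norm ℤ x0).natAbs ≠ 0 := by
    rw [Ne, Int.natAbs_eq_zero]
    exact Algebra.norm_ne_zero_iff.2 hΔ
  set M : ℕ := 8 * (Algebra.norm ℤ x0).natAbs with hM
  have hM0 : M ≠ 0 := mul_ne_zero (by norm_num) hnorm
  have hMv : ∀ v : HeightOneSpectrum (𝓞 K), 2 * x0 ∈ v.asIdeal → (M : 𝓞 K) ∈ v.asIdeal := by
    intro v hv
    rcases v.isPrime.mem_or_mem hv with h2 | h2
    · have e : (M : 𝓞 K) = 2 * (4 * ((Algebra.norm ℤ x0).natAbs : 𝓞 K)) := by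
        rw [hM]; push_cast; ring
      rw [e]
      exact v.asIdeal.mul_mem_right _ h2
    · have h3 : ((Algebra.norm ℤ x0 : ℤ) : 𝓞 K) ∈ v.asIdeal := by
        rw [← mul_tau h]
        exact v.asIdeal.mul_mem_right _ h2
      have h4 : (((Algebra.norm ℤ x0).natAbs : ℕ) : 𝓞 K) ∈ v.asIdeal := by
        rcases Int.natAbs_eq (Algebra.norm ℤ x0) with h5 | h5
        · rw [h5, Int.cast_natCast] at h3
          exact h3
        · rw [h5, Int.cast_neg, Int.cast_natCast, neg_mem_iff] at h3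
          exact h3
      have e : (M : 𝓞 K) = (((Algebra.norm ℤ x0).natAbs : ℕ) : 𝓞 K) * 8 := by
        rw [hM]; push_cast; ring
      rw [e]
      exact v.asIdeal.mul_mem_right _ h4
  obtain ⟨𝒟, d1, dcj, dmul, dall, D, hD, hind⟩ :=
    Pool.Agent.K4H15.BW.main h hΔ hf hE h0 hM0 (Q := Q) hQ hQi
  have hT : Twr 𝒟 := ⟨fun D hD => (dall D hD).2.1, d1, dmul,
    fun D hD v hv => ((dall D hD).2.2.2.2.1 v hv).1⟩
  refine ⟨tower 𝒟, ?_, Pool.Agent.K4H15.BW.tower_galois h dcj, ?_,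
    fun s => two_sub (tower 𝒟) le_rfl s, fun F _ hF => ?_⟩
  · refine Pool.Agent.K4H15.BW.tower_inf h dcj hD fun i j hij => ?_
    have h1 := hind {i, j} ∅ (Or.inl ⟨i, by simp⟩)
    rwa [Finset.prod_pair hij, Finset.prod_empty, mul_one] at h1
  · refine Pool.Agent.K4H15.BW.tower_noncomm h dcj (hD 0) ?_ ?_
    · have h1 := hind {0} ∅ (Or.inl ⟨0, by simp⟩)
      rwa [Finset.prod_singleton, Finset.prod_empty, mul_one] at h1
    · have h1 := hind {0} {0} (Or.inl ⟨0, by simp⟩)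
      rwa [Finset.prod_singleton, Finset.prod_singleton] at h1
  · have hfd : FiniteDimensional K F := Module.Finite.of_restrictScalars_finite ℚ K F
    have hgal := gal_sub F hF
    obtain ⟨k, hk⟩ := rank_two F hF
    obtain ⟨DD, x, hkum, hDD⟩ := exists_kum hT F hF
    have hM1 : ∀ v : HeightOneSpectrum (𝓞 K), 2 * (4 * a ^ 3 + 27 * b ^ 2) ∈ v.asIdeal →
        ∀ χ, DD χ - 1 ∈ v.asIdeal := by
      intro v hv χ
      obtain ⟨y, hy⟩ := (dall _ (hDD χ)).2.2.1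
      rw [hy]
      exact v.asIdeal.mul_mem_right _ (hMv v hv)
    have h8 : ∀ χ, (8 : 𝓞 K) ∣ DD χ - 1 := by
      intro χ
      refine dvd_trans ⟨((Algebra.norm ℤ x0).natAbs : 𝓞 K), ?_⟩ (dall _ (hDD χ)).2.2.1
      rw [hM]; push_cast; ring
    have hemb : ∀ v : HeightOneSpectrum (𝓞 K), 2 * (4 * a ^ 3 + 27 * b ^ 2) ∈ v.asIdeal →
        Nonempty (F →ₐ[K] v.adicCompletion K) := fun v hv =>
      emb_sub v (fun D hD => (dall D hD).2.2.2.1 v (v.asIdeal.mul_mem_right _ hv)) F hF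
    have h2u : ∀ u : HeightOneSpectrum (𝓞 F),
        2 * (4 * a ^ 3 + 27 * b ^ 2) ∉ (low (K := K) u).asIdeal → (2 : 𝓞 F) ∉ u.asIdeal := by
      intro u hu h2
      apply hu
      refine (low (K := K) u).asIdeal.mul_mem_right _ ?_
      rw [mem_low, map_ofNat]
      exact h2
    refine ⟨hgal, ⟨k, hk⟩, hemb, fun u hu hq y => ?_, ?_, ?_⟩
    · refine hkum.unram u (h2u u hu) (fun χ hχ => ?_) y
      obtain ⟨-, -, q, hqQ, hqv⟩ := (dall _ (hDD χ)).2.2.2.2.1 _ hχ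
      exact hq q hqQ hqv
    · exact hkum.prod hΔ hE h8 hM1 fun χ => (dall _ (hDD χ)).2.2.2.2.2
    · refine fin_up (F := F) hΔ hK hθ hS hk hemb fun u hu => ?_
      by_cases hex : ∃ χ, DD χ ∈ (low (K := K) u).asIdeal
      · obtain ⟨χ, hχ⟩ := hex
        exact Or.inl ((dall _ (hDD χ)).2.2.2.2.1 _ hχ).2.1
      · push Not at hex
        exact Or.inr fun y => hkum.unram u (h2u u hu) hex y

end Pool.Agent.U81.MQ
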