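import Pool.Agent.U81.MQ.Num

/-!
Counting the square roots at the places of a multiquadratic extension.
-/

set_option autoImplicit false

namespace Pool.Agent.U81.MQ

open NumberField IsDedekindDomain Pointwise WithZero
open Pool.Agent.K4H55.BD (low mem_low)

variable {K F : Type} [Field K] [NumberField K] [Field F] [NumberField F] [Algebra K F]
  [IsGalois K F] {D : ((F ≃ₐ[K] F) →* ℂˣ) → 𝓞 K} {x : ((F ≃ₐ[K] F) →* ℂˣ) → 𝓞 F}

omit [IsGalois K F] in
lemma Kum.sgn (h : Kum D x) (χ : (F ≃ₐ[K] F) →* ℂˣ) (σ : F ≃ₐ[K] F) : χ σ = 1 ∨ χ σ = -1 := by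
  have h1 : χ σ * χ σ = 1 := by rw [← map_mul, h.two, map_one]
  have h2 : ((χ σ : ℂˣ) : ℂ) * (χ σ : ℂˣ) = 1 := by
    rw [← Units.val_mul, h1, Units.val_one]
  rcases mul_self_eq_one_iff.1 h2 with h3 | h3
  · exact Or.inl (Units.ext (by rw [h3, Units.val_one]))
  · exact Or.inr (Units.ext (by rw [h3, Units.val_neg, Units.val_one]))

omit [IsGalois K F] in
lemma Kum.act (h : Kum D x) (χ : (F ≃ₐ[K] F) →* ℂˣ) (σ : F ≃ₐ[K] F) :
    (χ σ = 1 ∧ σ (x χ : F) = x χ) ∨ (χ σ = -1 ∧ σ (x χ : F) = -(x χ : F)) := by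
  rcases h.sgn χ σ with h1 | h1
  · left
    refine ⟨h1, ?_⟩
    have := congrArg (fun z : 𝓞 F => (z : F)) (h.fix χ σ h1)
    exact this
  · right
    refine ⟨h1, ?_⟩
    have hne : χ σ ≠ 1 := by
      rw [h1]
      intro h2
      have h3 := congrArg (fun z : ℂˣ => (z : ℂ)) h2
      simp only [Units.val_neg, Units.val_one] at h3
      norm_num at h3
    have := congrArg (fun z : 𝓞 F => (z : F)) (h.neg χ σ hne)
    exact this

omit [IsGalois K F] in
lemma Kum.x_ne (h : Kum D x) (χ : (F ≃ₐ[K] F) →* ℂˣ) : x χ ≠ 0 := by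
  intro h0
  have h1 := h.sq χ
  rw [h0, zero_pow two_ne_zero] at h1
  exact h.ne χ ((FaithfulSMul.algebraMap_injective (𝓞 K) (𝓞 F)) (by rw [← h1, map_zero]))

/-- the multiplication -/
lemma Kum.mul (h : Kum D x) (χ ψ : (F ≃ₐ[K] F) →* ℂˣ) :
    ∃ k : K, (D (χ * ψ) : K) = k ^ 2 * D χ * D ψ := by
  have hx1 : (x χ : F) ≠ 0 := fun h0 => h.x_ne χ (RingOfIntegers.ext h0)
  have hx2 : (x ψ : F) ≠ 0 := fun h0 => h.x_ne ψ (RingOfIntegers.ext h0)
  set z : F := (x (χ * ψ) : F) / (x χ * x ψ) with hz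
  have hfix : ∀ σ : F ≃ₐ[K] F, σ z = z := by
    intro σ
    rw [hz, map_div₀, map_mul]
    have hm : (χ * ψ) σ = χ σ * ψ σ := rfl
    have hone : (-1 : ℂˣ) ≠ 1 := by
      intro h2
      have h3 := congrArg (fun z : ℂˣ => (z : ℂ)) h2
      simp only [Units.val_neg, Units.val_one] at h3
      norm_num at h3
    rcases h.act χ σ with ⟨h1, h1'⟩ | ⟨h1, h1'⟩ <;> rcases h.act ψ σ with ⟨h2, h2'⟩ | ⟨h2, h2'⟩ <;>
      rcases h.act (χ * ψ) σ with ⟨h3, h3'⟩ | ⟨h3, h3'⟩ <;> rw [h1', h2', h3'] <;>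
      rw [hm, h1, h2] at h3
    · exact absurd h3.symm (by simp [hone])
    · exact absurd h3 (by simp)
    · rw [mul_neg, neg_div_neg_eq]
    · exact absurd h3 (by simp)
    · rw [neg_mul, neg_div_neg_eq]
    · rw [neg_mul_neg]
    · exact absurd h3 (by simp)
  obtain ⟨k, hk⟩ := (IsGalois.mem_range_algebraMap_iff_fixed z).2 hfix
  refine ⟨k, (algebraMap K F).injective ?_⟩
  have e : ∀ χ, algebraMap K F (D χ : K) = (x χ : F) ^ 2 := by
    intro χ
    have := congrArg (fun z : 𝓞 F => (z : F)) (h.sq χ)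
    simp only [map_pow] at this
    exact this.symm
  rw [map_mul, map_mul, map_pow, e, e, e, hk, hz]
  field_simp

lemma sq_ne {y : WithZero (Multiplicative ℤ)} {m : ℤ} (h : y ^ 2 = exp m) : 2 ∣ m := by
  have hy : y ≠ 0 := by
    rintro rfl
    rw [zero_pow two_ne_zero] at h
    exact exp_ne_zero h.symm
  rw [← exp_log hy, ← exp_nsmul, exp_inj] at h
  exact ⟨log y, by rw [← h]; simp⟩

omit [IsGalois K F] in
lemma fin_chr : Finite ((F ≃ₐ[K] F) →* ℂˣ) := inferInstance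

/-- the product of two elements divisible by `v` is prime to `v` up to squares -/
lemma Kum.mul_unit (h : Kum D x) {v : HeightOneSpectrum (𝓞 K)} {χ ψ : (F ≃ₐ[K] F) →* ℂˣ}
    (h1 : D χ ∈ v.asIdeal) (h2 : D ψ ∈ v.asIdeal) : D (χ * ψ) ∉ v.asIdeal := by
  intro h3
  obtain ⟨k, hk⟩ := h.mul χ ψ
  have h4 := h.val _ v h3
  rw [hk, map_mul, map_mul, map_pow, h.val _ v h1, h.val _ v h2, mul_assoc, ← pow_two, ← mul_pow] at h4
  have h5 := sq_ne h4
  omega

/-- the number of the units -/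
theorem Kum.units (h : Kum D x) (u : HeightOneSpectrum (𝓞 F)) (h2 : (2 : 𝓞 F) ∉ u.asIdeal) :
    Nat.card {χ : (F ≃ₐ[K] F) →* ℂˣ // D χ ∉ (low (K := K) u).asIdeal} *
      Nat.card (ine (K := K) u) = Nat.card (F ≃ₐ[K] F) ∧
    ∀ χ : (F ≃ₐ[K] F) →* ℂˣ, (∀ σ ∈ ine (K := K) u, χ σ = 1) → D χ ∉ (low (K := K) u).asIdeal := by
  classical
  have hfc : Finite ((F ≃ₐ[K] F) →* ℂˣ) := fin_chr
  obtain ⟨e, f, g, he, hf, hg, -, h5, -, -, -, h8⟩ := nums (K := K) u
  have hcard := card_ann h.comm (ine (K := K) u)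
  have hall := card_ann h.comm (⊥ : Subgroup (F ≃ₐ[K] F))
  rw [Subgroup.card_bot, mul_one] at hall
  have hall' : Nat.card ((F ≃ₐ[K] F) →* ℂˣ) = Nat.card (F ≃ₐ[K] F) := by
    rw [← hall]
    refine Nat.card_congr (Equiv.subtypeUnivEquiv fun χ σ hσ => ?_).symm
    rw [Subgroup.mem_bot] at hσ
    rw [hσ, map_one]
  set U : Set ((F ≃ₐ[K] F) →* ℂˣ) := {χ | D χ ∉ (low (K := K) u).asIdeal} with hU
  set A : Set ((F ≃ₐ[K] F) →* ℂˣ) := {χ | ∀ σ ∈ ine (K := K) u, χ σ = 1} with hA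
  have hUA : U ⊆ A := fun χ hχ σ hσ => h.inert u h2 hχ hσ
  have hcU : Nat.card U ≤ Nat.card A := Nat.card_mono (Set.toFinite A) hUA
  have hAc : Nat.card A * e = Nat.card (F ≃ₐ[K] F) := by rw [← hcard, h5]; rfl
  have key : Nat.card A ≤ Nat.card U := by
    by_cases hex : ∃ χ₀, D χ₀ ∈ (low (K := K) u).asIdeal
    · obtain ⟨χ₀, hχ₀⟩ := hex
      have h9 := h8 (D χ₀)
      rw [h.val _ _ hχ₀] at h9
      have h10 : algebraMap K F (D χ₀ : K) = (x χ₀ : F) ^ 2 := by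
        have := congrArg (fun z : 𝓞 F => (z : F)) (h.sq χ₀)
        simp only [map_pow] at this
        exact this.symm
      rw [h10, map_pow, ← exp_nsmul] at h9
      have h11 := sq_ne h9.symm
      have h12 : 2 ≤ e := by
        simp only [smul_neg, nsmul_eq_mul, mul_one, dvd_neg] at h11
        omega
      have h13 : Nat.card ((F ≃ₐ[K] F) →* ℂˣ) ≤ Nat.card U + Nat.card U := by
        have h14 : (Set.univ : Set ((F ≃ₐ[K] F) →* ℂˣ)) ⊆ U ∪ (fun χ => χ * χ₀) ⁻¹' U := by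
          intro χ _
          by_cases h15 : D χ ∈ (low (K := K) u).asIdeal
          · exact Or.inr (h.mul_unit h15 hχ₀)
          · exact Or.inl h15
        have h15 := Nat.card_mono (Set.toFinite _) h14
        rw [Nat.card_univ] at h15
        refine h15.trans ((Set.card_union_le _ _).trans (Nat.add_le_add_left ?_ _))
        have h16 : Nat.card ((fun χ : (F ≃ₐ[K] F) →* ℂˣ => χ * χ₀) ⁻¹' U) = Nat.card U :=
          Nat.card_preimage_of_injective (mul_left_injective χ₀) (fun χ _ =>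
            ⟨χ * χ₀⁻¹, inv_mul_cancel_right χ χ₀⟩)
        exact le_of_eq h16
      rw [hall'] at h13
      nlinarith
    · push Not at hex
      have : A ⊆ U := fun χ _ => hex χ
      exact Nat.card_mono (Set.toFinite U) this
  have heq : U = A := Set.eq_of_subset_of_ncard_le hUA (by
    rw [← Nat.card_coe_set_eq, ← Nat.card_coe_set_eq]
    exact key) (Set.toFinite A)
  refine ⟨?_, fun χ hχ => ?_⟩
  · rw [h5, ← hAc]
    congr 1
    exact le_antisymm hcU key
  · have : χ ∈ A := hχ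
    rw [← heq] at this
    exact this

end Pool.Agent.U81.MQ
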