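import Pool.Agent.K4H55.BD.Sel

/-!
The decomposition of the places in multiquadratic extensions.
-/

set_option autoImplicit false

namespace Pool.Agent.U81.MQ

open NumberField IsDedekindDomain Pointwise WithZero
open Pool.Agent.K4H55.BD (low mem_low)

section grp

variable {G : Type} [Group G] [Finite G]

/-- the number of the characters trivial on a subgroup -/
lemma card_ann (hc : ∀ a b : G, a * b = b * a) (H : Subgroup G) :
    Nat.card {χ : G →* ℂˣ // ∀ h ∈ H, χ h = 1} * Nat.card H = Nat.card G := by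
  letI : CommGroup G := { (inferInstance : Group G) with mul_comm := hc }
  have h1 := CommGroup.card_domRestrictHom_ker (M := ℂ) (G := G) H
  have h2 : Nat.card {χ : G →* ℂˣ // ∀ h ∈ H, χ h = 1} =
      Nat.card (MonoidHom.domRestrictHom H ℂˣ).ker := by
    refine Nat.card_congr (Equiv.subtypeEquivRight fun χ => ?_)
    rw [MonoidHom.mem_ker]
    constructor
    · intro h
      ext y
      have := h y.1 y.2
      simp [MonoidHom.domRestrictHom, this]
    · intro h y hy
      have := DFunLike.congr_fun h ⟨y, hy⟩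
      simpa [MonoidHom.domRestrictHom] using this
  rw [h2, h1]
  exact (Subgroup.card_eq_card_quotient_mul_card_subgroup H).symm

end grp

variable {K F : Type} [Field K] [NumberField K] [Field F] [NumberField F] [Algebra K F]
  [IsGalois K F]

/-- the elements `D` whose square roots `x` belong to the characters of the Galois group -/
structure Kum (D : ((F ≃ₐ[K] F) →* ℂˣ) → 𝓞 K) (x : ((F ≃ₐ[K] F) →* ℂˣ) → 𝓞 F) : Prop where
  sq : ∀ χ, x χ ^ 2 = algebraMap (𝓞 K) (𝓞 F) (D χ)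
  fix : ∀ χ (σ : F ≃ₐ[K] F), χ σ = 1 → σ • x χ = x χ
  neg : ∀ χ (σ : F ≃ₐ[K] F), χ σ ≠ 1 → σ • x χ = - x χ
  ne : ∀ χ, D χ ≠ 0
  val : ∀ χ (v : HeightOneSpectrum (𝓞 K)), D χ ∈ v.asIdeal →
    v.valuation K (D χ : K) = exp (-1 : ℤ)
  comm : ∀ a b : F ≃ₐ[K] F, a * b = b * a
  two : ∀ a : F ≃ₐ[K] F, a * a = 1

variable {D : ((F ≃ₐ[K] F) →* ℂˣ) → 𝓞 K} {x : ((F ≃ₐ[K] F) →* ℂˣ) → 𝓞 F}

lemma Kum.x_mem (h : Kum D x) (u : HeightOneSpectrum (𝓞 F)) {χ} (hx : x χ ∈ u.asIdeal) :
    D χ ∈ (low (K := K) u).asIdeal := by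
  rw [mem_low, ← h.sq]
  exact u.asIdeal.pow_mem_of_mem hx 2 two_pos

/-- the inertia group fixes the square roots of units -/
lemma Kum.inert (h : Kum D x) (u : HeightOneSpectrum (𝓞 F)) (h2 : (2 : 𝓞 F) ∉ u.asIdeal) {χ}
    (hD : D χ ∉ (low (K := K) u).asIdeal) {σ : F ≃ₐ[K] F}
    (hσ : σ ∈ AddSubgroup.inertia (M := 𝓞 F) u.asIdeal.toAddSubgroup (F ≃ₐ[K] F)) : χ σ = 1 := by
  by_contra h1
  have h3 := h.neg χ σ h1
  have h4 : σ • x χ - x χ ∈ u.asIdeal := hσ (x χ)
  rw [h3] at h4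
  have h5 : (2 : 𝓞 F) * x χ ∈ u.asIdeal := by
    have := u.asIdeal.neg_mem h4
    convert this using 1
    ring
  rcases u.isPrime.mem_or_mem h5 with h6 | h6
  · exact h2 h6
  · exact hD (h.x_mem u h6)

/-- the decomposition group fixes the square roots of squares -/
lemma Kum.dec_of_sq (h : Kum D x) (u : HeightOneSpectrum (𝓞 F)) (h2 : (2 : 𝓞 F) ∉ u.asIdeal) {χ}
    (hD : D χ ∉ (low (K := K) u).asIdeal) {y : 𝓞 K}
    (hy : D χ - y ^ 2 ∈ (low (K := K) u).asIdeal) {σ : F ≃ₐ[K] F}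
    (hσ : σ • u.asIdeal = u.asIdeal) : χ σ = 1 := by
  by_contra h1
  have h3 := h.neg χ σ h1
  set z : 𝓞 F := algebraMap (𝓞 K) (𝓞 F) y with hz
  have hσz : σ • z = z := by
    apply RingOfIntegers.ext
    show σ (z : F) = z
    have : (z : F) = algebraMap K F (y : K) := rfl
    rw [this, AlgEquiv.commutes]
  have hyu : z ∉ u.asIdeal := by
    intro h4
    apply hD
    have h5 : y ^ 2 ∈ (low (K := K) u).asIdeal := by
      rw [mem_low, map_pow]
      exact u.asIdeal.pow_mem_of_mem h4 2 two_pos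
    have := (low (K := K) u).asIdeal.add_mem hy h5
    rwa [sub_add_cancel] at this
  have hm : ∀ w ∈ u.asIdeal, σ • w ∈ u.asIdeal := by
    intro w hw
    rw [← hσ]
    exact Ideal.smul_mem_pointwise_smul σ w u.asIdeal hw
  have h4 : (x χ - z) * (x χ + z) ∈ u.asIdeal := by
    rw [mem_low] at hy
    have e : (x χ - z) * (x χ + z) = algebraMap (𝓞 K) (𝓞 F) (D χ - y ^ 2) := by
      rw [map_sub, map_pow, ← h.sq]
      ring
    rw [e]
    exact hy
  have key : (2 : 𝓞 F) * z ∈ u.asIdeal := by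
    rcases u.isPrime.mem_or_mem h4 with h5 | h5
    · have h6 := hm _ h5
      rw [smul_sub, h3, hσz] at h6
      have h7 := u.asIdeal.neg_mem (u.asIdeal.add_mem h5 h6)
      convert h7 using 1
      ring
    · have h6 := hm _ h5
      rw [smul_add, h3, hσz] at h6
      have h7 := u.asIdeal.add_mem h5 h6
      convert h7 using 1
      ring
  rcases u.isPrime.mem_or_mem key with h6 | h6
  · exact h2 h6
  · exact hyu h6

end Pool.Agent.U81.MQ
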