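import Pool.Agent.U81.MQ.Sq
import Pool.Agent.K4H15.BW.Twi
import Pool.Agent.U81.BX.Eul

/-!
The Euler factors above a place in a multiquadratic extension.
-/

set_option autoImplicit false

namespace Pool.Agent.U81.MQ

open NumberField IsDedekindDomain Pointwise WithZero
open Pool.Agent.K4H55.BD (low mem_low pv pv_twist)
open Pool.Agent.K4H55.BI (sym)
open Pool.Agent.K4H15.BW (efD)
open Pool.Agent.K4H55.CX (facF luc)

variable {K F : Type} [Field K] [NumberField K] [Field F] [NumberField F] [Algebra K F]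
  [IsGalois K F] {D : ((F ≃ₐ[K] F) →* ℂˣ) → 𝓞 K} {x : ((F ≃ₐ[K] F) →* ℂˣ) → 𝓞 F}

omit [IsGalois K F] [NumberField K] in
/-- there is a place above `v` -/
lemma exists_above [NumberField K] (v : HeightOneSpectrum (𝓞 K)) :
    ∃ u : HeightOneSpectrum (𝓞 F), low (K := K) u = v := by
  have hmv : v.asIdeal.IsMaximal := v.isPrime.isMaximal v.ne_bot
  obtain ⟨P⟩ := (inferInstance : Nonempty (v.asIdeal.primesOver (𝓞 F)))
  have h1 := P.2.2.over
  refine ⟨⟨P.1, P.2.1, fun h0 => ?_⟩, ?_⟩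
  · rw [h0] at h1
    apply v.ne_bot
    rw [h1]
    exact Ideal.under_bot _ _
  · apply HeightOneSpectrum.ext
    exact h1.symm

lemma Kum.card_all (h : Kum D x) : Nat.card ((F ≃ₐ[K] F) →* ℂˣ) = Nat.card (F ≃ₐ[K] F) := by
  have hall := card_ann h.comm (⊥ : Subgroup (F ≃ₐ[K] F))
  rw [Subgroup.card_bot, mul_one] at hall
  rw [← hall]
  refine Nat.card_congr (Equiv.subtypeUnivEquiv fun χ σ hσ => ?_).symm
  rw [Subgroup.mem_bot] at hσ
  rw [hσ, map_one]

/-- if the decomposition group is trivial then the place splits completely -/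
lemma Kum.split (h : Kum D x) (u : HeightOneSpectrum (𝓞 F))
    (hu : ∀ χ : (F ≃ₐ[K] F) →* ℂˣ, ∀ σ ∈ dec (K := K) u, χ σ = 1) :
    Nat.card (dec (K := K) u) = 1 := by
  have h1 := card_ann h.comm (dec (K := K) u)
  have h2 : Nat.card {χ : (F ≃ₐ[K] F) →* ℂˣ // ∀ σ ∈ dec (K := K) u, χ σ = 1} =
      Nat.card ((F ≃ₐ[K] F) →* ℂˣ) := Nat.card_congr (Equiv.subtypeUnivEquiv fun χ => hu χ)
  rw [h2, h.card_all] at h1
  have hpos : 0 < Nat.card (F ≃ₐ[K] F) := Nat.card_pos
  exact Nat.eq_of_mul_eq_mul_left hpos (by rw [h1, mul_one])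

omit [NumberField F] [IsGalois K F] in
lemma prod_two (A B : ℂ) (P Q : ((F ≃ₐ[K] F) →* ℂˣ) → Prop) [FiniteDimensional K F]
    (g : ((F ≃ₐ[K] F) →* ℂˣ) → ℂ) (h1 : ∀ χ, P χ → g χ = A) (h2 : ∀ χ, Q χ → g χ = B)
    (h3 : ∀ χ, ¬ P χ → ¬ Q χ → g χ = 1) (h4 : ∀ χ, P χ → ¬ Q χ)
    [Fintype ((F ≃ₐ[K] F) →* ℂˣ)] :
    ∏ χ, g χ = A ^ Nat.card {χ // P χ} * B ^ Nat.card {χ // Q χ} := by
  classical
  have e : ∀ χ, g χ = (if P χ then A else 1) * (if Q χ then B else 1) := by
    intro χ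
    by_cases hP : P χ
    · rw [if_pos hP, if_neg (h4 χ hP), mul_one, h1 χ hP]
    · by_cases hQ : Q χ
      · rw [if_neg hP, if_pos hQ, one_mul, h2 χ hQ]
      · rw [if_neg hP, if_neg hQ, one_mul, h3 χ hP hQ]
  rw [Finset.prod_congr rfl fun χ _ => e χ, Finset.prod_mul_distrib, Finset.prod_ite,
    Finset.prod_ite, Finset.prod_const_one, Finset.prod_const_one, mul_one, mul_one,
    Finset.prod_const, Finset.prod_const, Nat.card_eq_fintype_card, Nat.card_eq_fintype_card,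
    Fintype.card_subtype, Fintype.card_subtype]

/-- **The Euler factors above a place.** -/
theorem Kum.fiber (h : Kum D x) {a b n : 𝓞 K} {c : Ideal (𝓞 K) → ℂ}
    (hE : ∀ v : HeightOneSpectrum (𝓞 K), 2 * (4 * a ^ 3 + 27 * b ^ 2) ∉ v.asIdeal →
      n ∉ v.asIdeal ∧ c v.asIdeal = (Ideal.absNorm v.asIdeal : ℂ) - pv a b v)
    (h8 : ∀ χ, (8 : 𝓞 K) ∣ D χ - 1)
    (hM : ∀ v : HeightOneSpectrum (𝓞 K), 2 * (4 * a ^ 3 + 27 * b ^ 2) ∈ v.asIdeal →
      ∀ χ, D χ - 1 ∈ v.asIdeal) (v : HeightOneSpectrum (𝓞 K)) (s : ℂ)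
    [Fintype ((F ≃ₐ[K] F) →* ℂˣ)] :
    ∏ᶠ w : {w : HeightOneSpectrum (𝓞 F) //
      w.asIdeal.comap (algebraMap (𝓞 K) (𝓞 F)) = v.asIdeal},
        facF n c v (Ideal.absNorm w.1.asIdeal) s = ∏ χ, efD a b n c (D χ) s v := by
  classical
  obtain ⟨u, rfl⟩ := exists_above (F := F) v
  obtain ⟨e, f, g, he, hf, hg, h4, h5, h6, h7, h9, h8'⟩ := nums (K := K) u
  set v := low (K := K) u with hv
  -- the left side
  have hL : ∏ᶠ w : {w : HeightOneSpectrum (𝓞 F) //
      w.asIdeal.comap (algebraMap (𝓞 K) (𝓞 F)) = v.asIdeal},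
        facF n c v (Ideal.absNorm w.1.asIdeal) s = facF n c v (Ideal.absNorm v.asIdeal ^ f) s ^ g := by
    have hcard : Nat.card {w : HeightOneSpectrum (𝓞 F) //
        w.asIdeal.comap (algebraMap (𝓞 K) (𝓞 F)) = v.asIdeal} = g := by
      rw [h4]
      refine Nat.card_congr (Equiv.subtypeEquivRight fun w => ?_)
      constructor
      · intro h10
        exact HeightOneSpectrum.ext h10
      · intro h10
        rw [← h10]
        rfl
    have hfin : Finite {w : HeightOneSpectrum (𝓞 F) //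
        w.asIdeal.comap (algebraMap (𝓞 K) (𝓞 F)) = v.asIdeal} :=
      Nat.finite_of_card_ne_zero (by omega)
    have : Fintype {w : HeightOneSpectrum (𝓞 F) //
        w.asIdeal.comap (algebraMap (𝓞 K) (𝓞 F)) = v.asIdeal} := Fintype.ofFinite _
    rw [finprod_eq_prod_of_fintype, Finset.prod_congr rfl fun w _ => by
      rw [h9 w.1 (HeightOneSpectrum.ext w.2)], Finset.prod_const, Finset.card_univ,
      ← Nat.card_eq_fintype_card, hcard]
  rw [hL]
  have hq2 : 2 ≤ Ideal.absNorm v.asIdeal := U81.BX.two_le v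
  have hpos : 0 < Nat.card (F ≃ₐ[K] F) := Nat.card_pos
  have hlog : ∀ j, Nat.log (Ideal.absNorm v.asIdeal) (Ideal.absNorm v.asIdeal ^ j) = j :=
    fun j => Nat.log_pow (by omega) j
  by_cases hbad : 2 * (4 * a ^ 3 + 27 * b ^ 2) ∈ v.asIdeal
  · -- split
    have hD : ∀ χ, D χ ∉ v.asIdeal := by
      intro χ h10
      have h11 := v.asIdeal.sub_mem h10 (hM v hbad χ)
      rw [sub_sub_cancel] at h11
      exact v.isPrime.ne_top ((Ideal.eq_top_iff_one _).2 h11)
    have hdec : ∀ χ : (F ≃ₐ[K] F) →* ℂˣ, ∀ σ ∈ dec (K := K) u, χ σ = 1 := by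
      intro χ σ hσ
      by_cases h2 : (2 : 𝓞 F) ∈ u.asIdeal
      · exact h.dec_eight u h2 (h8 χ) hσ
      · exact h.dec_of_sq u h2 (hD χ) (y := 1) (by rw [one_pow]; exact hM v hbad χ) hσ
    have h10 := h.split u hdec
    rw [h10] at h6
    have hf1 : f = 1 := Nat.eq_one_of_mul_eq_one_left h6.symm
    have he1 : e = 1 := Nat.eq_one_of_mul_eq_one_right h6.symm
    rw [he1, hf1, mul_one, mul_one] at h7
    have h11 : ∀ χ, efD a b n c (D χ) s v = facF n c v (Ideal.absNorm v.asIdeal ^ f) s := by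
      intro χ
      unfold efD facF
      rw [if_pos hbad, hlog, hf1, pow_one]
      by_cases hn : n ∈ v.asIdeal
      · rw [if_pos hn, if_pos hn, pow_one, add_zero]
      · rw [if_neg hn, if_neg hn]
        simp only [luc, pow_one]
    rw [Finset.prod_congr rfl fun χ _ => h11 χ, Finset.prod_const, Finset.card_univ,
      ← Nat.card_eq_fintype_card, h.card_all, ← h7]
  · have h2v : (2 : 𝓞 K) ∉ v.asIdeal := fun h10 => hbad (v.asIdeal.mul_mem_right _ h10)
    have h2 : (2 : 𝓞 F) ∉ u.asIdeal := by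
      intro h10
      apply h2v
      rw [mem_low, map_ofNat]
      exact h10
    obtain ⟨hn, hcv⟩ := hE v hbad
    have hf2 : f ≤ 2 := f_le h u (h9 u rfl)
    set P : ((F ≃ₐ[K] F) →* ℂˣ) → Prop := fun χ => D χ ∉ v.asIdeal ∧
      ∃ y : 𝓞 K, D χ - y ^ 2 ∈ v.asIdeal with hP
    set Q : ((F ≃ₐ[K] F) →* ℂˣ) → Prop := fun χ => D χ ∉ v.asIdeal ∧
      ¬ ∃ y : 𝓞 K, D χ - y ^ 2 ∈ v.asIdeal with hQ
    have hcP : Nat.card {χ // P χ} = g := by
      have h10 := card_ann h.comm (dec (K := K) u)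
      have h11 : Nat.card {χ : (F ≃ₐ[K] F) →* ℂˣ // ∀ σ ∈ dec (K := K) u, χ σ = 1} =
          Nat.card {χ // P χ} := Nat.card_congr (Equiv.subtypeEquivRight fun χ => h.squares u h2 χ)
      rw [h11, h6, ← h7] at h10
      exact Nat.eq_of_mul_eq_mul_right (Nat.mul_pos he hf) h10
    have hcPQ : Nat.card {χ // P χ} + Nat.card {χ // Q χ} = g * f := by
      have h10 := (h.units u h2).1
      rw [h5, ← h7] at h10
      have h11 : Nat.card {χ : (F ≃ₐ[K] F) →* ℂˣ // D χ ∉ (low (K := K) u).asIdeal} = g * f := by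
        refine Nat.eq_of_mul_eq_mul_right he ?_
        rw [h10]
        ring
      rw [← h11, Nat.card_eq_fintype_card, Nat.card_eq_fintype_card, Nat.card_eq_fintype_card,
        Fintype.card_subtype, Fintype.card_subtype, Fintype.card_subtype,
        ← Finset.card_union_of_disjoint]
      · congr 1
        ext χ
        simp only [hP, hQ, Finset.mem_union, Finset.mem_filter, Finset.mem_univ, true_and]
        tauto
      · rw [Finset.disjoint_left]
        intro χ h12 h13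
        simp only [hP, hQ, Finset.mem_filter, Finset.mem_univ, true_and] at h12 h13
        exact h13.2 h12.2
    have hcQ : Nat.card {χ // Q χ} = g * f - g := by omega
    set q : ℂ := (Ideal.absNorm v.asIdeal : ℂ) with hq
    set t := c v.asIdeal with ht
    have hR := prod_two (K := K) (F := F)
      ((1 - t * q ^ (-s) + q ^ (1 - 2 * s))⁻¹) ((1 + t * q ^ (-s) + q ^ (1 - 2 * s))⁻¹) P Q
      (fun χ => efD a b n c (D χ) s v)
      (fun χ hχ => by
        show efD a b n c (D χ) s v = _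
        unfold efD
        rw [if_neg hbad, if_neg hχ.1, pv_twist h2v a b hχ.1]
        unfold sym
        rw [if_neg hχ.1, if_pos hχ.2, one_mul, ← hcv])
      (fun χ hχ => by
        show efD a b n c (D χ) s v = _
        unfold efD
        rw [if_neg hbad, if_neg hχ.1, pv_twist h2v a b hχ.1]
        unfold sym
        rw [if_neg hχ.1, if_neg hχ.2, ← hcv]
        congr 2
        ring)
      (fun χ h10 h11 => by
        show efD a b n c (D χ) s v = _
        unfold efD
        rw [if_neg hbad, if_pos]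
        by_contra h12
        by_cases h13 : ∃ y : 𝓞 K, D χ - y ^ 2 ∈ v.asIdeal
        · exact h10 ⟨h12, h13⟩
        · exact h11 ⟨h12, h13⟩)
      (fun χ h10 h11 => h11.2 h10.2)
    rw [hR, hcP, hcQ]
    unfold facF
    rw [if_neg hn, hlog]
    interval_cases f
    · rw [mul_one, Nat.sub_self, pow_zero, mul_one, pow_one]
      rfl
    · have e1 : g * 2 - g = g := by omega
      rw [e1, ← mul_pow]
      congr 1
      rw [← mul_inv]
      congr 1
      have hq0 : q ≠ 0 := by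
        rw [hq]
        exact_mod_cast (by omega : Ideal.absNorm v.asIdeal ≠ 0)
      have e2 : ((Ideal.absNorm v.asIdeal ^ 2 : ℕ) : ℂ) ^ (-s) = (q ^ (-s)) ^ 2 :=
        Pool.Agent.K4H55.CX.cpow_f _ 2 s
      have e3 : ((Ideal.absNorm v.asIdeal ^ 2 : ℕ) : ℂ) ^ (1 - 2 * s) =
          q ^ 2 * ((q ^ (-s)) ^ 2) ^ 2 := by
        rw [Pool.Agent.K4H55.CX.cpow_two _ (by positivity), e2]
        push_cast
        rfl
      have e4 : q ^ (1 - 2 * s) = q * (q ^ (-s)) ^ 2 :=
        Pool.Agent.K4H55.CX.cpow_two _ (by omega) s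
      rw [e2, e3, e4]
      simp only [luc]
      ring

end Pool.Agent.U81.MQ
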