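import Pool.Agent.U81.MQ.Kmx
import Pool.Agent.U81.MQ.Fib
import Pool.Agent.K4H55.CX.Up

/-!
The finite layers of the towers.
-/

set_option autoImplicit false

namespace Pool.Agent.U81.MQ

open NumberField IsDedekindDomain Pointwise WithZero Polynomial
open Pool.Agent.K4H15.BW (tower roots root_mem efD NVD)
open Pool.Agent.K4H55.BD (low mem_low pv crv Cub)
open Pool.Agent.K4H55.CX (facF SelG)
open Pool.Agent.U81.BX (fct)

variable {K : Type} [Field K] [NumberField K] {𝒟 : Set (𝓞 K)}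

/-- the embeddings in the completions -/
theorem emb_sub (v : HeightOneSpectrum (𝓞 K))
    (hsq : ∀ D ∈ 𝒟, IsSquare (algebraMap K (v.adicCompletion K) D))
    (F : IntermediateField K (AlgebraicClosure K)) (hF : F ≤ tower 𝒟) :
    Nonempty (F →ₐ[K] v.adicCompletion K) := by
  have h1 : Nonempty (tower 𝒟 →ₐ[K] v.adicCompletion K) := by
    refine IntermediateField.nonempty_algHom_adjoin_of_splits fun r hr => ?_
    refine ⟨Algebra.IsIntegral.isIntegral r, ?_⟩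
    obtain ⟨D, hD, h2⟩ := hr
    obtain ⟨s, hs⟩ := hsq D hD
    have h3 : minpoly K r ∣ (X ^ 2 - C (D : K) : K[X]) := by
      refine minpoly.dvd K r ?_
      simp only [map_sub, map_pow, aeval_X, aeval_C, h2, sub_self]
    have h4 := Polynomial.map_dvd (algebraMap K (v.adicCompletion K)) h3
    have h5 : (X ^ 2 - C (D : K) : K[X]).map (algebraMap K (v.adicCompletion K)) =
        (X - C s) * (X - C (-s)) := by
      rw [Polynomial.map_sub, Polynomial.map_pow, Polynomial.map_X, Polynomial.map_C, hs]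
      simp only [map_mul, map_neg]
      ring
    rw [h5] at h4
    exact Splits.of_dvd ((Splits.X_sub_C s).mul (Splits.X_sub_C (-s)))
      (mul_ne_zero (X_sub_C_ne_zero s) (X_sub_C_ne_zero (-s))) h4
  obtain ⟨φ⟩ := h1
  exact ⟨φ.comp (IntermediateField.inclusion hF)⟩

variable (F : IntermediateField K (AlgebraicClosure K))

lemma rank_two (hF : F ≤ tower 𝒟) [FiniteDimensional K F] :
    ∃ k : ℕ, Module.finrank K F = 2 ^ k := by
  have := gal_sub F hF
  have h1 : IsPGroup 2 (F ≃ₐ[K] F) := fun g => ⟨1, by rw [pow_one, pow_two]; exact two_sub F hF g⟩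
  obtain ⟨k, hk⟩ := IsPGroup.iff_card.1 h1
  exact ⟨k, by rw [← IsGalois.card_aut_eq_finrank, hk]⟩

/-- unramified places -/
theorem Kum.unram {F : Type} [Field F] [NumberField F] [Algebra K F] [IsGalois K F]
    {D : ((F ≃ₐ[K] F) →* ℂˣ) → 𝓞 K} {x : ((F ≃ₐ[K] F) →* ℂˣ) → 𝓞 F}
    (h : Kum D x) (u : HeightOneSpectrum (𝓞 F)) (h2 : (2 : 𝓞 F) ∉ u.asIdeal)
    (hD : ∀ χ, D χ ∉ (low (K := K) u).asIdeal) (y : K) :
    u.valuation F (algebraMap K F y) = (low (K := K) u).valuation K y := by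
  obtain ⟨e, f, g, he, hf, hg, h4, h5, h6, h7, h9, h8⟩ := nums (K := K) u
  have h10 := (h.units u h2).1
  have h11 : Nat.card {χ : (F ≃ₐ[K] F) →* ℂˣ // D χ ∉ (low (K := K) u).asIdeal} =
      Nat.card ((F ≃ₐ[K] F) →* ℂˣ) := Nat.card_congr (Equiv.subtypeUnivEquiv hD)
  rw [h11, h.card_all, h5] at h10
  have hpos : 0 < Nat.card (F ≃ₐ[K] F) := Nat.card_pos
  have he1 : e = 1 := Nat.eq_of_mul_eq_mul_left hpos (by rw [h10, mul_one])
  have h12 := h8 y
  rw [he1, pow_one] at h12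
  exact h12.symm

/-- **The Euler product** -/
theorem Kum.prod {F : Type} [Field F] [NumberField F] [Algebra K F] [IsGalois K F]
    {D : ((F ≃ₐ[K] F) →* ℂˣ) → 𝓞 K} {x : ((F ≃ₐ[K] F) →* ℂˣ) → 𝓞 F}
    (h : Kum D x) {a b n : 𝓞 K} {c : Ideal (𝓞 K) → ℂ} (hΔ : 4 * a ^ 3 + 27 * b ^ 2 ≠ 0)
    (hE : ∀ v : HeightOneSpectrum (𝓞 K), 2 * (4 * a ^ 3 + 27 * b ^ 2) ∉ v.asIdeal →
      n ∉ v.asIdeal ∧ c v.asIdeal = (Ideal.absNorm v.asIdeal : ℂ) - pv a b v)
    (h8 : ∀ χ, (8 : 𝓞 K) ∣ D χ - 1)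
    (hM : ∀ v : HeightOneSpectrum (𝓞 K), 2 * (4 * a ^ 3 + 27 * b ^ 2) ∈ v.asIdeal →
      ∀ χ, D χ - 1 ∈ v.asIdeal)
    (hnv : ∀ χ, NVD a b n c (D χ)) :
    ∃ G : ℂ → ℂ, Differentiable ℂ G ∧ (∀ s : ℂ, 2 < s.re → HasProd (fct (F := F) a b n c s) (G s)) ∧
      G 1 ≠ 0 := by
  classical
  have hfc : Finite ((F ≃ₐ[K] F) →* ℂˣ) := fin_chr
  have : Fintype ((F ≃ₐ[K] F) →* ℂˣ) := Fintype.ofFinite _
  choose G hG1 hG2 hG3 using hnv
  refine ⟨fun s => ∏ χ, G χ s, ?_, fun s hs => ?_, ?_⟩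
  · exact Differentiable.fun_finsetProd fun χ _ => hG1 χ
  · refine U81.BX.hasProd_fct hΔ hE (fun u => ?_) (fun v => ?_) (by linarith) ?_
    · obtain ⟨e, f, g, he, hf, hg, h4, h5, h6, h7, h9, h8⟩ := nums (K := K) u
      exact ⟨f, h9 u rfl⟩
    · obtain ⟨u, rfl⟩ := exists_above (F := F) v
      obtain ⟨e, f, g, he, hf, hg, h4, h5, h6, h7, h9, h8⟩ := nums (K := K) u
      have h10 : Nat.card {w : HeightOneSpectrum (𝓞 F) //
          w.asIdeal.comap (algebraMap (𝓞 K) (𝓞 F)) = (low (K := K) u).asIdeal} = g := by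
        rw [h4]
        refine Nat.card_congr (Equiv.subtypeEquivRight fun w => ?_)
        constructor
        · intro h10
          exact HeightOneSpectrum.ext h10
        · intro h10
          rw [← h10]
          rfl
      exact Nat.finite_of_card_ne_zero (by omega)
    · have h1 : HasProd (fun v => ∏ χ, efD a b n c (D χ) s v) (∏ χ, G χ s) :=
        hasProd_prod fun χ _ => hG2 χ s hs
      refine (congrArg (fun g => HasProd g (∏ χ, G χ s)) (funext fun v => ?_)).mp h1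
      exact (h.fiber hE h8 hM v s).symm
  · exact Finset.prod_ne_zero_iff.2 fun χ _ => hG3 χ

end Pool.Agent.U81.MQ
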