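import Pool.Agent.U81.MQ.Twr

/-!
The square roots in the finite subfields of the towers.
-/

set_option autoImplicit false

namespace Pool.Agent.U81.MQ

open NumberField IsDedekindDomain Pointwise WithZero
open Pool.Agent.K4H15.BW (tower roots root_mem)

variable {K : Type} [Field K] [NumberField K] {𝒟 : Set (𝓞 K)}

omit [NumberField K] in
/-- a finite subfield is generated by finitely many square roots -/
lemma exists_fs [CharZero K] (F : IntermediateField K (AlgebraicClosure K)) (hF : F ≤ tower 𝒟)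
    [FiniteDimensional K F] :
    ∃ T : Finset (AlgebraicClosure K), (∀ t ∈ T, t ∈ roots 𝒟) ∧
      F ≤ IntermediateField.adjoin K (T : Set (AlgebraicClosure K)) := by
  obtain ⟨z, hz⟩ := Field.exists_primitive_element K F
  have hzm : (z : AlgebraicClosure K) ∈ IntermediateField.adjoin K (roots 𝒟) := hF z.2
  obtain ⟨T, hT, hzT⟩ := IntermediateField.exists_finset_of_mem_adjoin hzm
  refine ⟨T, fun t ht => hT ht, fun y hy => ?_⟩
  have h2 : (⟨y, hy⟩ : F) ∈ IntermediateField.adjoin K {z} := by rw [hz]; trivial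
  have h3 : y ∈ (IntermediateField.adjoin K {z}).map F.val := ⟨⟨y, hy⟩, h2, rfl⟩
  rw [IntermediateField.adjoin_map, Set.image_singleton] at h3
  have h4 : IntermediateField.adjoin K {F.val z} ≤
      IntermediateField.adjoin K (T : Set (AlgebraicClosure K)) := by
    rw [IntermediateField.adjoin_le_iff]
    rintro _ rfl
    exact hzT
  exact h4 h3

lemma neg_one_ne : (-1 : ℂˣ) ≠ 1 := by
  intro h2
  have h3 := congrArg (fun z : ℂˣ => (z : ℂ)) h2
  simp only [Units.val_neg, Units.val_one] at h3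
  norm_num at h3

lemma sgn_two {G : Type} [Group G] (h2 : ∀ a : G, a * a = 1) (χ : G →* ℂˣ) (σ : G) :
    χ σ = 1 ∨ χ σ = -1 := by
  have h1 : χ σ * χ σ = 1 := by rw [← map_mul, h2, map_one]
  have h2 : ((χ σ : ℂˣ) : ℂ) * (χ σ : ℂˣ) = 1 := by
    rw [← Units.val_mul, h1, Units.val_one]
  rcases mul_self_eq_one_iff.1 h2 with h3 | h3
  · exact Or.inl (Units.ext (by rw [h3, Units.val_one]))
  · exact Or.inr (Units.ext (by rw [h3, Units.val_neg, Units.val_one]))

theorem exists_kum (h : Twr 𝒟) (F : IntermediateField K (AlgebraicClosure K)) (hF : F ≤ tower 𝒟)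
    [FiniteDimensional K F] [NumberField F] :
    ∃ (D : ((F ≃ₐ[K] F) →* ℂˣ) → 𝓞 K) (x : ((F ≃ₐ[K] F) →* ℂˣ) → 𝓞 F), Kum D x ∧
      ∀ χ, D χ ∈ 𝒟 := by
  classical
  have hgal := gal_sub F hF
  obtain ⟨T, hT, hFT⟩ := exists_fs F hF
  have hft : Fintype (F ≃ₐ[K] F) := Fintype.ofFinite _
  have key : ∀ χ : (F ≃ₐ[K] F) →* ℂˣ, ∃ D ∈ 𝒟, ∃ x : 𝓞 F, x ^ 2 = algebraMap (𝓞 K) (𝓞 F) D ∧
      ∀ σ : F ≃ₐ[K] F, (χ σ = 1 → σ • x = x) ∧ (χ σ ≠ 1 → σ • x = - x) := by
    intro χ
    let ε : (F ≃ₐ[K] F) →* F :=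
      { toFun := fun σ => if χ σ = 1 then 1 else -1
        map_one' := by rw [map_one, if_pos rfl]
        map_mul' := fun σ τ => by
          rw [map_mul]
          rcases sgn_two (two_sub F hF) χ σ with h1 | h1 <;>
            rcases sgn_two (two_sub F hF) χ τ with h2 | h2 <;>
            simp [h1, h2, neg_one_ne] }
    have hε : ∀ σ, ε σ = if χ σ = 1 then 1 else -1 := fun σ => rfl
    obtain ⟨z, hz0, hz⟩ := eigen (G := F ≃ₐ[K] F) (L := F) ε (fun σ τ => by
      rw [hε]
      split_ifs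
      · exact smul_one σ
      · rw [smul_neg, smul_one]) (fun σ => by
      rw [hε]
      split_ifs
      · exact mul_one 1
      · exact neg_mul_neg 1 1 |>.trans (mul_one 1))
    have hz2 : ∀ σ : F ≃ₐ[K] F, σ (z ^ 2) = z ^ 2 := by
      intro σ
      have h1 : σ z = ε σ * z := hz σ
      rw [map_pow, h1, mul_pow, hε]
      split_ifs
      · rw [one_pow, one_mul]
      · rw [neg_one_sq, one_mul]
    obtain ⟨d, hd⟩ := (IsGalois.mem_range_algebraMap_iff_fixed (z ^ 2)).2 hz2
    obtain ⟨k, r, hr, hzr⟩ := kummer h T hT (z : AlgebraicClosure K) (hFT z.2) ⟨d, by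
      have := congrArg (fun y : F => (y : AlgebraicClosure K)) hd
      exact this.symm⟩
    have hk : k ≠ 0 := by
      rintro rfl
      rw [map_zero, zero_mul] at hzr
      exact hz0 (Subtype.ext hzr)
    have hk' : algebraMap K F k ≠ 0 := (map_ne_zero _).2 hk
    obtain ⟨D, hD, hrD⟩ := hr
    -- the root in `F`
    set y : F := z / algebraMap K F k with hy
    have hyr : (y : AlgebraicClosure K) = r := by
      have e : (y : AlgebraicClosure K) = (z : AlgebraicClosure K) /
        algebraMap K (AlgebraicClosure K) k := rfl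
      have hk2 : algebraMap K (AlgebraicClosure K) k ≠ 0 := (map_ne_zero _).2 hk
      rw [e, hzr, mul_div_cancel_left₀ _ hk2]
    have hy2 : y ^ 2 = algebraMap K F (D : K) := by
      apply Subtype.ext
      show (y : AlgebraicClosure K) ^ 2 = algebraMap K (AlgebraicClosure K) (D : K)
      rw [hyr, hrD]
    have hyi : IsIntegral ℤ y := by
      refine IsIntegral.of_pow two_pos ?_
      rw [hy2]
      exact (RingOfIntegers.isIntegral_coe D).map
        (((algebraMap K F).toIntAlgHom : K →ₐ[ℤ] F))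
    refine ⟨D, hD, ⟨y, hyi⟩, RingOfIntegers.ext hy2, fun σ => ?_⟩
    have hσ : σ y = ε σ * y := by
      have h1 : σ z = ε σ * z := hz σ
      rw [hy, map_div₀, σ.commutes, h1, mul_div_assoc]
    constructor
    · intro h1
      apply RingOfIntegers.ext
      show σ y = y
      rw [hσ, hε, if_pos h1, one_mul]
    · intro h1
      apply RingOfIntegers.ext
      show σ y = -y
      rw [hσ, hε, if_neg h1, neg_one_mul]
  choose D hD x hx hσ using key
  exact ⟨D, x, ⟨hx, fun χ σ h1 => (hσ χ σ).1 h1, fun χ σ h1 => (hσ χ σ).2 h1,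
    fun χ => h.ne _ (hD χ), fun χ v hv => h.val _ (hD χ) v hv, comm_sub F hF, two_sub F hF⟩, hD⟩

end Pool.Agent.U81.MQ
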