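import Pool.Agent.U81.MQ.Dec

/-!
The numbers of the places in Galois extensions.
-/

set_option autoImplicit false

namespace Pool.Agent.U81.MQ

open NumberField IsDedekindDomain Pointwise WithZero
open Pool.Agent.K4H55.BD (low mem_low)

variable {K F : Type} [Field K] [NumberField K] [Field F] [NumberField F] [Algebra K F]
  [IsGalois K F]

/-- the decomposition group -/
def dec (u : HeightOneSpectrum (𝓞 F)) : Subgroup (F ≃ₐ[K] F) :=
  MulAction.stabilizer (F ≃ₐ[K] F) u.asIdeal

/-- the inertia group -/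
def ine (u : HeightOneSpectrum (𝓞 F)) : Subgroup (F ≃ₐ[K] F) :=
  AddSubgroup.inertia (M := 𝓞 F) u.asIdeal.toAddSubgroup (F ≃ₐ[K] F)

/-- the numbers -/
theorem nums (u : HeightOneSpectrum (𝓞 F)) : ∃ e f g : ℕ, 0 < e ∧ 0 < f ∧ 0 < g ∧
    g = Nat.card {w : HeightOneSpectrum (𝓞 F) // low (K := K) w = low u} ∧
    Nat.card (ine (K := K) u) = e ∧ Nat.card (dec (K := K) u) = e * f ∧
    g * (e * f) = Nat.card (F ≃ₐ[K] F) ∧
    (∀ w : HeightOneSpectrum (𝓞 F), low (K := K) w = low u →
      Ideal.absNorm w.asIdeal = Ideal.absNorm (low (K := K) u).asIdeal ^ f) ∧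
    (∀ z : K, (low (K := K) u).valuation K z ^ e = u.valuation F (algebraMap K F z)) := by
  classical
  set v := low (K := K) u with hv
  have hlo : u.asIdeal.LiesOver v.asIdeal := ⟨rfl⟩
  have hmv : v.asIdeal.IsMaximal := v.isPrime.isMaximal v.ne_bot
  have hfin : Finite (𝓞 K ⧸ v.asIdeal) := Ideal.finiteQuotientOfFreeOfNeBot v.asIdeal v.ne_bot
  have hres : Finite v.asIdeal.ResidueField := by
    have h1 : Function.Surjective (algebraMap (𝓞 K ⧸ v.asIdeal) v.asIdeal.ResidueField) :=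
      (Ideal.bijective_algebraMap_quotient_residueField v.asIdeal).2
    exact Finite.of_surjective _ h1
  have hperf : PerfectField v.asIdeal.ResidueField := inferInstance
  have h1 := Ideal.card_inertia_eq_ramificationIdxIn (G := F ≃ₐ[K] F) v.asIdeal u.asIdeal
  have h2 := Ideal.card_stabilizer_eq (G := F ≃ₐ[K] F) v.asIdeal u.asIdeal
  have h3 := Ideal.ncard_primesOver_mul_ramificationIdxIn_mul_inertiaDegIn v.asIdeal (𝓞 F)
    (F ≃ₐ[K] F)
  have hpos : 0 < Nat.card (F ≃ₐ[K] F) := Nat.card_pos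
  refine ⟨v.asIdeal.ramificationIdxIn (𝓞 F), v.asIdeal.inertiaDegIn (𝓞 F),
    (v.asIdeal.primesOver (𝓞 F)).ncard, ?_, ?_, ?_, ?_, h1, h2, h3, fun w hw => ?_, fun z => ?_⟩
  · rw [Nat.pos_iff_ne_zero]
    intro h0
    rw [h0] at h3
    simp only [zero_mul, mul_zero] at h3
    omega
  · rw [Nat.pos_iff_ne_zero]
    intro h0
    rw [h0] at h3
    simp only [mul_zero] at h3
    omega
  · rw [Nat.pos_iff_ne_zero]
    intro h0
    rw [h0] at h3
    simp only [zero_mul] at h3
    omega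
  · rw [← Nat.card_coe_set_eq]
    refine Nat.card_congr
      { toFun := fun P => ⟨⟨P.1, P.2.1, fun h0 => ?_⟩, ?_⟩
        invFun := fun w => ⟨w.1.asIdeal, w.1.isPrime, ⟨?_⟩⟩
        left_inv := fun P => rfl
        right_inv := fun w => rfl }
    · have h4 := P.2.2.over
      rw [h0] at h4
      apply v.ne_bot
      rw [h4]
      exact Ideal.under_bot _ _
    · apply HeightOneSpectrum.ext
      exact P.2.2.over.symm
    · have := congrArg HeightOneSpectrum.asIdeal w.2
      exact this.symm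
  · have hlw : w.asIdeal.LiesOver v.asIdeal := by
      rw [← hw]
      exact ⟨rfl⟩
    have hmw : w.asIdeal.IsMaximal := w.isPrime.isMaximal w.ne_bot
    rw [Ideal.absNorm_eq_pow_inertiaDeg'_of_liesOver w.asIdeal v.asIdeal v.isPrime v.ne_bot,
      Ideal.inertiaDeg'_eq_inertiaDeg, Ideal.inertiaDegIn_eq_inertiaDeg v.asIdeal w.asIdeal
        (F ≃ₐ[K] F)]
  · rw [← HeightOneSpectrum.valuation_liesOver (L := F) v u z,
      Ideal.ramificationIdx'_eq_ramificationIdx v.asIdeal u.asIdeal v.ne_bot,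
      Ideal.ramificationIdxIn_eq_ramificationIdx v.asIdeal u.asIdeal (F ≃ₐ[K] F)]

end Pool.Agent.U81.MQ
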