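import Pool.Agent.U81.MQ.Cnt

/-!
The decomposition groups in multiquadratic extensions.
-/

set_option autoImplicit false

namespace Pool.Agent.U81.MQ

open NumberField IsDedekindDomain Pointwise WithZero
open Pool.Agent.K4H55.BD (low mem_low)

variable {K F : Type} [Field K] [NumberField K] [Field F] [NumberField F] [Algebra K F]
  [IsGalois K F] {D : ((F ≃ₐ[K] F) →* ℂˣ) → 𝓞 K} {x : ((F ≃ₐ[K] F) →* ℂˣ) → 𝓞 F}

/-- the residue degree is at most two -/
theorem f_le (h : Kum D x) (u : HeightOneSpectrum (𝓞 F)) {f : ℕ} (hf : Ideal.absNorm u.asIdeal =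
    Ideal.absNorm (low (K := K) u).asIdeal ^ f) : f ≤ 2 := by
  classical
  set v := low (K := K) u with hv
  have hlo : u.asIdeal.LiesOver v.asIdeal := ⟨rfl⟩
  have hmv : v.asIdeal.IsMaximal := v.isPrime.isMaximal v.ne_bot
  have hmu : u.asIdeal.IsMaximal := u.isPrime.isMaximal u.ne_bot
  let : Field (𝓞 K ⧸ v.asIdeal) := Ideal.Quotient.field v.asIdeal
  let : Field (𝓞 F ⧸ u.asIdeal) := Ideal.Quotient.field u.asIdeal
  have : Finite (𝓞 K ⧸ v.asIdeal) := Ideal.finiteQuotientOfFreeOfNeBot v.asIdeal v.ne_bot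
  have : Finite (𝓞 F ⧸ u.asIdeal) := Ideal.finiteQuotientOfFreeOfNeBot u.asIdeal u.ne_bot
  let : Fintype (𝓞 K ⧸ v.asIdeal) := Fintype.ofFinite _
  let : Fintype (𝓞 F ⧸ u.asIdeal) := Fintype.ofFinite _
  have hcv : Ideal.absNorm v.asIdeal = Fintype.card (𝓞 K ⧸ v.asIdeal) := by
    rw [Ideal.absNorm_apply, Submodule.cardQuot_apply, Nat.card_eq_fintype_card]
  have hcu : Ideal.absNorm u.asIdeal = Fintype.card (𝓞 F ⧸ u.asIdeal) := by
    rw [Ideal.absNorm_apply, Submodule.cardQuot_apply, Nat.card_eq_fintype_card]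
  have hfin : Module.finrank (𝓞 K ⧸ v.asIdeal) (𝓞 F ⧸ u.asIdeal) = f := by
    have h4 := Module.card_eq_pow_finrank (K := 𝓞 K ⧸ v.asIdeal) (V := 𝓞 F ⧸ u.asIdeal)
    rw [← hcu, ← hcv, hf] at h4
    have h5 : 2 ≤ Ideal.absNorm v.asIdeal := by
      have h6 : Ideal.absNorm v.asIdeal ≠ 0 := by
        rw [Ne, Ideal.absNorm_eq_zero_iff]
        exact v.ne_bot
      have h7 : Ideal.absNorm v.asIdeal ≠ 1 := by
        rw [Ne, Ideal.absNorm_eq_one_iff]
        exact v.isPrime.ne_top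
      omega
    exact (Nat.pow_right_injective h5 h4).symm
  obtain ⟨s, hs⟩ := Ideal.Quotient.stabilizerHom_surjective (F ≃ₐ[K] F) v.asIdeal u.asIdeal
    (FiniteField.frobeniusAlgEquivOfAlgebraic (𝓞 K ⧸ v.asIdeal) (𝓞 F ⧸ u.asIdeal))
  have h1 : s * s = 1 := Subtype.ext (h.two s.1)
  have h2 := congrArg (Ideal.Quotient.stabilizerHom u.asIdeal v.asIdeal (F ≃ₐ[K] F)) h1
  rw [map_mul, map_one, hs, ← pow_two] at h2
  have h3 := orderOf_dvd_of_pow_eq_one h2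
  rw [FiniteField.orderOf_frobeniusAlgEquivOfAlgebraic, hfin] at h3
  exact Nat.le_of_dvd two_pos h3

/-- the square roots fixed by the decomposition group -/
theorem Kum.squares (h : Kum D x) (u : HeightOneSpectrum (𝓞 F)) (h2 : (2 : 𝓞 F) ∉ u.asIdeal)
    (χ : (F ≃ₐ[K] F) →* ℂˣ) : (∀ σ ∈ dec (K := K) u, χ σ = 1) ↔
      D χ ∉ (low (K := K) u).asIdeal ∧ ∃ y : 𝓞 K, D χ - y ^ 2 ∈ (low (K := K) u).asIdeal := by
  classical
  refine ⟨fun hχ => ?_, fun ⟨h3, y, hy⟩ σ hσ => h.dec_of_sq u h2 h3 hy hσ⟩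
  have hle : ine (K := K) u ≤ dec (K := K) u := Ideal.inertia_le_stabilizer u.asIdeal
  refine ⟨(h.units u h2).2 χ fun σ hσ => hχ σ (hle hσ), ?_⟩
  set v := low (K := K) u with hv
  have hlo : u.asIdeal.LiesOver v.asIdeal := ⟨rfl⟩
  have hmv : v.asIdeal.IsMaximal := v.isPrime.isMaximal v.ne_bot
  have hmu : u.asIdeal.IsMaximal := u.isPrime.isMaximal u.ne_bot
  let : Field (𝓞 K ⧸ v.asIdeal) := Ideal.Quotient.field v.asIdeal
  let : Field (𝓞 F ⧸ u.asIdeal) := Ideal.Quotient.field u.asIdeal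
  have : Finite (𝓞 K ⧸ v.asIdeal) := Ideal.finiteQuotientOfFreeOfNeBot v.asIdeal v.ne_bot
  have : Finite (𝓞 F ⧸ u.asIdeal) := Ideal.finiteQuotientOfFreeOfNeBot u.asIdeal u.ne_bot
  have hfix : ∀ τ : (𝓞 F ⧸ u.asIdeal) ≃ₐ[𝓞 K ⧸ v.asIdeal] (𝓞 F ⧸ u.asIdeal),
      τ (Ideal.Quotient.mk u.asIdeal (x χ)) = Ideal.Quotient.mk u.asIdeal (x χ) := by
    intro τ
    obtain ⟨s, rfl⟩ := Ideal.Quotient.stabilizerHom_surjective (F ≃ₐ[K] F) v.asIdeal u.asIdeal τ
    have h3 : s.1 • x χ = x χ := h.fix χ s.1 (hχ s.1 s.2)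
    have h4 := Ideal.Quotient.stabilizerHom_apply u.asIdeal v.asIdeal (F ≃ₐ[K] F) s (x χ)
    rw [show s • x χ = x χ from h3] at h4
    exact h4
  obtain ⟨y, hy⟩ := (IsGalois.mem_range_algebraMap_iff_fixed _).2 hfix
  obtain ⟨y, rfl⟩ := Ideal.Quotient.mk_surjective y
  have h5 : Ideal.Quotient.mk u.asIdeal (algebraMap (𝓞 K) (𝓞 F) y) =
      Ideal.Quotient.mk u.asIdeal (x χ) := hy
  rw [Ideal.Quotient.eq] at h5
  refine ⟨y, ?_⟩
  rw [mem_low, map_sub, map_pow, ← h.sq]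
  have e : x χ ^ 2 - algebraMap (𝓞 K) (𝓞 F) y ^ 2 = (algebraMap (𝓞 K) (𝓞 F) y - x χ) *
      (-(algebraMap (𝓞 K) (𝓞 F) y + x χ)) := by ring
  rw [e]
  exact u.asIdeal.mul_mem_right _ h5

omit [IsGalois K F] in
/-- the decomposition group preserves the valuation -/
lemma val_dec (u : HeightOneSpectrum (𝓞 F)) {σ : F ≃ₐ[K] F} (hσ : σ • u.asIdeal = u.asIdeal)
    (y : 𝓞 F) : u.intValuation (σ • y) = u.intValuation y := by
  have key : ∀ (τ : F ≃ₐ[K] F), τ • u.asIdeal = u.asIdeal → ∀ y : 𝓞 F,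
      u.intValuation (τ • y) ≤ u.intValuation y := by
    intro τ hτ y
    by_cases hy : y = 0
    · rw [hy, smul_zero]
    · rw [u.intValuation_eq_exp_neg_multiplicity hy, u.intValuation_le_pow_iff_mem]
      have h1 : y ∈ u.asIdeal ^ multiplicity u.asIdeal (Ideal.span {y}) := by
        rw [← u.intValuation_le_pow_iff_mem, u.intValuation_eq_exp_neg_multiplicity hy]
      have h2 := Ideal.smul_mem_pointwise_smul τ y _ h1
      rwa [smul_pow', hτ] at h2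
  refine le_antisymm (key σ hσ y) ?_
  have h1 := key σ⁻¹ (by rw [inv_smul_eq_iff, hσ]) (σ • y)
  rwa [inv_smul_smul] at h1

omit [IsGalois K F] in
/-- the places above two -/
theorem Kum.dec_eight (h : Kum D x) (u : HeightOneSpectrum (𝓞 F)) (h2 : (2 : 𝓞 F) ∈ u.asIdeal)
    {χ : (F ≃ₐ[K] F) →* ℂˣ} (h8 : (8 : 𝓞 K) ∣ D χ - 1) {σ : F ≃ₐ[K] F}
    (hσ : σ • u.asIdeal = u.asIdeal) : χ σ = 1 := by
  by_contra h1
  have h3 := h.neg χ σ h1
  have hv := val_dec u hσ (x χ - 1)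
  have e1 : σ • (x χ - 1) = -(x χ + 1) := by
    rw [smul_sub, h3, smul_one]
    ring
  rw [e1, Valuation.map_neg] at hv
  set t := u.intValuation (2 : 𝓞 F) with ht
  have ht0 : t ≠ 0 := u.intValuation_ne_zero 2 two_ne_zero
  have ht1 : t < 1 := (u.intValuation_lt_one_iff_mem 2).2 h2
  have h4 : t ≤ u.intValuation (x χ - 1) := by
    have e2 : (2 : 𝓞 F) = (x χ + 1) - (x χ - 1) := by ring
    rw [ht, e2]
    refine (Valuation.map_sub _ _ _).trans ?_
    rw [hv, max_self]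
  obtain ⟨m, hm⟩ := h8
  have h5 : u.intValuation (x χ - 1) * u.intValuation (x χ - 1) ≤ t * t * t := by
    have e3 : (x χ + 1) * (x χ - 1) = 2 * 2 * 2 * algebraMap (𝓞 K) (𝓞 F) m := by
      have e4 : (x χ + 1) * (x χ - 1) = algebraMap (𝓞 K) (𝓞 F) (D χ - 1) := by
        rw [map_sub, ← h.sq, map_one]
        ring
      rw [e4, hm, map_mul, map_ofNat]
      norm_num
    have e5 := congrArg u.intValuation e3
    rw [map_mul, map_mul, map_mul, map_mul, hv] at e5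
    rw [e5]
    exact mul_le_of_le_one_right' (u.intValuation_le_one _)
  have h6 : t * t ≤ t * t * t := (mul_le_mul' h4 h4).trans h5
  have h7 : t * t * t < t * t := by
    have h8 : 0 < t * t := by
      rw [zero_lt_iff]
      exact mul_ne_zero ht0 ht0
    exact mul_lt_of_lt_one_right h8 ht1
  exact absurd h6 (not_le.2 h7)

end Pool.Agent.U81.MQ
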