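import Pool.Agent.U81.MQ.Sq
import Pool.Agent.K4H15.BW.Gal

/-!
The finite subfields of the towers.
-/

set_option autoImplicit false

namespace Pool.Agent.U81.MQ

open NumberField IsDedekindDomain Pointwise WithZero
open Pool.Agent.K4H15.BW (tower roots root_mem adjoin_insert)

variable {K : Type} [Field K] [NumberField K]

/-- the properties of the set of the elements of which the square roots are taken -/
structure Twr (𝒟 : Set (𝓞 K)) : Prop where
  ne : ∀ D ∈ 𝒟, D ≠ 0
  one : 1 ∈ 𝒟
  mul : ∀ D ∈ 𝒟, ∀ D' ∈ 𝒟, ∃ D'' ∈ 𝒟, ∃ g : 𝓞 K, g ≠ 0 ∧ D'' * g ^ 2 = D * D'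
  val : ∀ D ∈ 𝒟, ∀ v : HeightOneSpectrum (𝓞 K), D ∈ v.asIdeal →
    v.valuation K (D : K) = exp (-1 : ℤ)

variable {𝒟 : Set (𝓞 K)}

lemma act_root (σ : AlgebraicClosure K →ₐ[K] AlgebraicClosure K) {r : AlgebraicClosure K}
    (hr : r ∈ roots 𝒟) : σ r = r ∨ σ r = -r := by
  obtain ⟨D, hD, h1⟩ := hr
  have h2 : σ r ^ 2 = r ^ 2 := by rw [← map_pow, h1, σ.commutes]
  exact sq_eq_sq_iff_eq_or_eq_neg.1 h2

lemma ext_tower {f g : AlgebraicClosure K →ₐ[K] AlgebraicClosure K}
    (h : ∀ r ∈ roots 𝒟, f r = g r) {z : AlgebraicClosure K} (hz : z ∈ tower 𝒟) : f z = g z := by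
  refine IntermediateField.adjoin_induction K (s := roots 𝒟) (p := fun z _ => f z = g z)
    (fun x hx => h x hx) (fun x => by rw [f.commutes, g.commutes]) ?_ ?_ ?_ hz
  · intro x y _ _ hx hy
    rw [map_add, map_add, hx, hy]
  · intro x _ hx
    rw [map_inv₀, map_inv₀, hx]
  · intro x y _ _ hx hy
    rw [map_mul, map_mul, hx, hy]

lemma comm_tower (σ τ : AlgebraicClosure K →ₐ[K] AlgebraicClosure K) {z : AlgebraicClosure K}
    (hz : z ∈ tower 𝒟) : σ (τ z) = τ (σ z) := by
  refine ext_tower (f := σ.comp τ) (g := τ.comp σ) (fun r hr => ?_) hz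
  show σ (τ r) = τ (σ r)
  rcases act_root σ hr with h1 | h1 <;> rcases act_root τ hr with h2 | h2 <;>
    simp only [h1, h2, map_neg]

lemma two_tower (σ : AlgebraicClosure K →ₐ[K] AlgebraicClosure K) {z : AlgebraicClosure K}
    (hz : z ∈ tower 𝒟) : σ (σ z) = z := by
  refine ext_tower (f := σ.comp σ) (g := AlgHom.id K _) (fun r hr => ?_) hz
  show σ (σ r) = r
  rcases act_root σ hr with h1 | h1 <;> simp only [h1, map_neg, neg_neg]

variable (F : IntermediateField K (AlgebraicClosure K))

lemma norm_sub (hF : F ≤ tower 𝒟) : Normal K F := by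
  rw [IntermediateField.normal_iff_forall_map_le]
  rintro σ _ ⟨z, hz, rfl⟩
  have hgal : IsGalois K (AlgebraicClosure K) := inferInstance
  rw [← InfiniteGalois.fixedField_fixingSubgroup F]
  rintro ⟨τ, hτ⟩
  show τ (σ z) = σ z
  have h1 := comm_tower (τ : AlgebraicClosure K →ₐ[K] AlgebraicClosure K) σ (hF hz)
  have h2 : τ z = z := hτ ⟨z, hz⟩
  have h3 : τ (σ z) = σ (τ z) := h1
  rw [h3, h2]

lemma gal_sub (hF : F ≤ tower 𝒟) : IsGalois K F := by
  have := norm_sub F hF
  exact ⟨⟩

lemma comm_sub (hF : F ≤ tower 𝒟) (a b : F ≃ₐ[K] F) : a * b = b * a := by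
  have := norm_sub F hF
  have key : ∀ (a : F ≃ₐ[K] F) (z : F), ((a z : F) : AlgebraicClosure K) =
      (a.liftNormal (AlgebraicClosure K)) z := fun a z => (a.liftNormal_commutes _ z).symm
  ext z
  show ((a (b z) : F) : AlgebraicClosure K) = ((b (a z) : F) : AlgebraicClosure K)
  rw [key, key, key, key]
  exact comm_tower ((a.liftNormal (AlgebraicClosure K)) : _ →ₐ[K] _)
    ((b.liftNormal (AlgebraicClosure K)) : _ →ₐ[K] _) (hF z.2)

lemma two_sub (hF : F ≤ tower 𝒟) (a : F ≃ₐ[K] F) : a * a = 1 := by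
  have := norm_sub F hF
  have key : ∀ (a : F ≃ₐ[K] F) (z : F), ((a z : F) : AlgebraicClosure K) =
      (a.liftNormal (AlgebraicClosure K)) z := fun a z => (a.liftNormal_commutes _ z).symm
  ext z
  show ((a (a z) : F) : AlgebraicClosure K) = z
  rw [key, key]
  exact two_tower ((a.liftNormal (AlgebraicClosure K)) : _ →ₐ[K] _) (hF z.2)

/-- **Kummer theory** for finitely many square roots -/
lemma kummer (h : Twr 𝒟) (T : Finset (AlgebraicClosure K)) (hT : ∀ t ∈ T, t ∈ roots 𝒟) :
    ∀ z ∈ IntermediateField.adjoin K (T : Set (AlgebraicClosure K)),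
      (∃ d : K, z ^ 2 = algebraMap K _ d) →
      ∃ (k : K) (r : AlgebraicClosure K), r ∈ roots 𝒟 ∧ z = algebraMap K _ k * r := by
  classical
  induction T using Finset.induction_on with
  | empty =>
    intro z hz _
    rw [Finset.coe_empty, IntermediateField.adjoin_empty, IntermediateField.mem_bot] at hz
    obtain ⟨k, rfl⟩ := hz
    refine ⟨k, 1, ⟨1, h.one, ?_⟩, by rw [mul_one]⟩
    rw [one_pow]
    simp
  | insert t T ht ih =>
    intro z hz hd
    have ih' := ih fun s hs => hT s (Finset.mem_insert_of_mem hs)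
    obtain ⟨D, hD, htD⟩ := hT t (Finset.mem_insert_self t T)
    rw [Finset.coe_insert] at hz
    obtain ⟨u, hu, v, hv, rfl⟩ := adjoin_insert _ (by
      rw [htD]
      exact IntermediateField.algebraMap_mem _ _) hz
    obtain ⟨d, hd⟩ := hd
    have ht0 : t ≠ 0 := by
      rintro rfl
      rw [zero_pow two_ne_zero] at htD
      exact h.ne D hD (RingOfIntegers.ext ((map_eq_zero _).1 htD.symm))
    by_cases huv : u * v = 0
    · rcases mul_eq_zero.1 huv with h1 | h1
      · -- `z = v t`
        subst h1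
        rw [zero_add] at hd ⊢
        obtain ⟨k, r, ⟨D', hD', hr⟩, hk⟩ := ih' v hv ⟨d / (D : K), by
          rw [map_div₀, ← hd, ← htD, mul_pow]
          field_simp⟩
        obtain ⟨D'', hD'', g, hg, h2⟩ := h.mul D' hD' D hD
        have hg0 : algebraMap K (AlgebraicClosure K) (g : K) ≠ 0 :=
          (map_ne_zero _).2 fun h3 => hg (RingOfIntegers.ext h3)
        refine ⟨k * (g : K), r * t / algebraMap K _ (g : K), ⟨D'', hD'', ?_⟩, ?_⟩
        · have h3 : (D'' : K) * (g : K) ^ 2 = (D' : K) * (D : K) := by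
            rw [← map_pow, ← map_mul, h2, map_mul]
          have h4 := congrArg (algebraMap K (AlgebraicClosure K)) h3
          rw [map_mul, map_mul, map_pow] at h4
          rw [div_pow, mul_pow, hr, htD, ← h4]
          field_simp
        · rw [hk, map_mul]
          field_simp
      · -- `z = u`
        subst h1
        rw [zero_mul, add_zero] at hd ⊢
        exact ih' u hu ⟨d, hd⟩
    · -- `t` is in the field
      have hu0 : u ≠ 0 := left_ne_zero_of_mul huv
      have hv0 : v ≠ 0 := right_ne_zero_of_mul huv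
      have hmem : t ∈ IntermediateField.adjoin K (T : Set (AlgebraicClosure K)) := by
        have e : t = (algebraMap K _ d - u ^ 2 - v ^ 2 * algebraMap K _ (D : K)) *
            (2 * (u * v))⁻¹ := by
          rw [← hd, ← htD]
          field_simp
          ring
        rw [e]
        refine IntermediateField.mul_mem _ (IntermediateField.sub_mem _ (IntermediateField.sub_mem _
          (IntermediateField.algebraMap_mem _ _) (pow_mem hu 2))
          (IntermediateField.mul_mem _ (pow_mem hv 2)
          (IntermediateField.algebraMap_mem _ _))) (IntermediateField.inv_mem _ ?_)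
        have : (2 : AlgebraicClosure K) * (u * v) = u * v + u * v := by ring
        rw [this]
        exact IntermediateField.add_mem _ (IntermediateField.mul_mem _ hu hv)
          (IntermediateField.mul_mem _ hu hv)
      exact ih' _ (IntermediateField.add_mem _ hu (IntermediateField.mul_mem _ hv hmem)) ⟨d, hd⟩

/-- eigenvectors of the characters -/
lemma eigen {G L : Type} [Group G] [Fintype G] [Field L] [MulSemiringAction G L]
    [FaithfulSMul G L] (ε : G →* L) (hε : ∀ (σ τ : G), σ • ε τ = ε τ) (h2 : ∀ σ, ε σ * ε σ = 1) :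
    ∃ z : L, z ≠ 0 ∧ ∀ σ : G, σ • z = ε σ * z := by
  classical
  obtain ⟨y, hy⟩ : ∃ y : L, ∑ σ : G, ε σ * σ • y ≠ 0 := by
    by_contra hcon
    push Not at hcon
    have h1 := linearIndependent_monoidHom L L
    let φ : G → (L →* L) := fun σ => (MulSemiringAction.toRingHom G L σ : L →* L)
    have hφ : Function.Injective φ := by
      intro σ τ hστ
      apply FaithfulSMul.eq_of_smul_eq_smul (α := L)
      intro y
      exact DFunLike.congr_fun hστ y
    have h3 := h1.comp φ hφ
    rw [Fintype.linearIndependent_iff] at h3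
    have h4 := h3 (fun σ => ε σ) (by
      funext y
      simp only [Finset.sum_apply, Pi.smul_apply, Function.comp, smul_eq_mul, Pi.zero_apply]
      exact hcon y) 1
    rw [map_one] at h4
    exact one_ne_zero h4
  refine ⟨_, hy, fun σ => ?_⟩
  rw [Finset.smul_sum, Finset.mul_sum]
  refine Fintype.sum_equiv (Equiv.mulLeft σ) _ _ fun τ => ?_
  rw [smul_mul', hε, Equiv.coe_mulLeft, map_mul, mul_smul]
  linear_combination (-(ε τ * σ • τ • y)) * h2 σ

end Pool.Agent.U81.MQ
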